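import Pool.Agent.TH755.KA.ThmE
import Pool.Agent.TH671.KS.Uni
import Pool.Agent.H545R2.KS.Sat

set_option autoImplicit false

/-!
# Joseph's inseparability statement against separators with few bits of advice

`K[log n, n ^ log n] ∩ SAT` and the complement of `SAT` cannot be separated by a set in `P` with
`o(log n)` bits of advice unless `P = NP`; and `K[(log n) ^ 2, n ^ log n] ∩ SAT` cannot be
separated from it with `O(log n)` bits of advice. The advice is the usual one (a string for each
input length), hence the result holds for full advice too.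

Idea. The algorithm for `SAT` runs the search for a satisfying assignment with the separator in
place of an oracle for `SAT`, for all advice strings. If it fails, look for a satisfiable formula
on which the search fails for all advice strings, together with a satisfying assignment, with the
separator as a guide again. One of at most three strings is then a mistake of the separator; they
are computed from a number `i` and the two correct advice strings in polynomial time, so they are
in `K`. All questions of one search are padded to the same length, so that one advice string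
serves for all of them. Without advice this is the proof of helper671 (`InseparableIffPNeNP`), from
which the library files are adapted.
-/

namespace Pool.Agent.Results.MP_359409_lc.FewAdviceBits

open Filter Pool.Agent.TH671.KS Pool.Agent.TH755.KA.Ex
open Pool.Agent.NPC (InP InNP pairBits)
open Pool.Agent.H545R2.KS (Machine K SAT)

/-- `A` and `B` can be separated by a set in `P` with advice of length `a n`. -/
def SeparableAdv (a : ℕ → ℕ) (A B : Set (List Bool)) : Prop :=
  ∃ S : Set (List Bool), InPA a S ∧ A ⊆ S ∧ S ∩ B = ∅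

/-- `P = NP`. -/
def PEqNP : Prop := ∀ L : Set (List Bool), InP L ↔ InNP L

/-- There are polynomially many advice strings; the bound `g` for the length of the descriptions
exceeds `2 log log log n + 3 a(N)` by more than any constant, for all `N` polynomial in `n`; and the
time bound `G` exceeds every polynomial. -/
def Admissible (g G a : ℕ → ℕ) : Prop :=
  (∃ c, ∀ n, 2 ^ a n ≤ (n + 2) ^ c) ∧
  (∀ c, ∀ᶠ n in atTop, ∀ N ≤ n ^ c,
    2 * Nat.log 2 (Nat.log 2 (Nat.log 2 n)) + 3 * a N + c ≤ g n) ∧
  ∀ c, ∀ᶠ n in atTop, n ^ c ≤ G n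

theorem le_log_of (c n : ℕ) (hn : 2 ^ c ≤ n) : c ≤ Nat.log 2 n := by
  have h1 : 0 < 2 ^ c := by positivity
  exact (Nat.le_log_iff_pow_le (by norm_num) (by omega)).2 hn

theorem time_ok : ∀ c, ∀ᶠ n in atTop, n ^ c ≤ n ^ Nat.clog 2 n := by
  intro c
  filter_upwards [eventually_ge_atTop (2 ^ c)] with n hn
  have h1 := le_log_of _ _ hn
  have h2 := Nat.log_le_clog 2 n
  have h3 : 0 < 2 ^ c := by positivity
  exact Nat.pow_le_pow_right (by omega) (by omega)

theorem log_half (k : ℕ) : Nat.log 2 k ≤ k / 2 := by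
  rcases Nat.eq_zero_or_pos k with rfl | hk
  · simp
  · have h4 : k / 2 < 2 ^ (k / 2) := Nat.lt_two_pow_self
    have h5 : k < 2 ^ (k / 2 + 1) := by rw [pow_succ]; omega
    have := (Nat.log_lt_iff_lt_pow (by norm_num) (by omega)).2 h5
    omega

theorem log_pow_le (n c : ℕ) : Nat.log 2 (n ^ c) ≤ c * (Nat.log 2 n + 1) := by
  rcases Nat.eq_zero_or_pos n with rfl | hn
  · rcases Nat.eq_zero_or_pos c with rfl | hc
    · simp
    · rw [zero_pow (by omega)]; simp
  · have h1 : n < 2 ^ (Nat.log 2 n + 1) := Nat.lt_pow_succ_log_self (by norm_num) n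
    calc Nat.log 2 (n ^ c) ≤ Nat.log 2 ((2 ^ (Nat.log 2 n + 1)) ^ c) :=
          Nat.log_mono_right (Nat.pow_le_pow_left h1.le c)
      _ = c * (Nat.log 2 n + 1) := by
          rw [← pow_mul, Nat.log_pow (by norm_num), mul_comm]

/-- `g n = log n`, `G n = n ^ log n`, and `o(log n)` bits of advice -/
theorem admissible_log {a : ℕ → ℕ} (ha : ∀ k : ℕ, ∀ᶠ n in atTop, k * a n ≤ Nat.log 2 n) :
    Admissible (fun n => Nat.clog 2 n) (fun n => n ^ Nat.clog 2 n) a := by
  -- a bound for small arguments
  have hM : ∀ k : ℕ, ∃ M, ∀ n, k * a n ≤ Nat.log 2 n + k * M := by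
    intro k
    obtain ⟨n₀, hn₀⟩ := eventually_atTop.1 (ha k)
    refine ⟨(Finset.range n₀).sup a, fun n => ?_⟩
    by_cases h : n < n₀
    · have h1 : a n ≤ (Finset.range n₀).sup a := Finset.le_sup (Finset.mem_range.2 h)
      have := Nat.mul_le_mul_left k h1
      omega
    · have := hn₀ n (by omega)
      omega
  refine ⟨?_, ?_, time_ok⟩
  · obtain ⟨M, hM1⟩ := hM 1
    refine ⟨1 + M, fun n => ?_⟩
    have h1 := hM1 n
    have h2 : 2 ^ Nat.log 2 n ≤ n + 1 := by
      rcases Nat.eq_zero_or_pos n with rfl | hn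
      · simp
      · exact (Nat.pow_log_le_self 2 (by omega)).trans (by omega)
    calc 2 ^ a n ≤ 2 ^ (Nat.log 2 n + M) := Nat.pow_le_pow_right (by norm_num) (by omega)
      _ = 2 ^ Nat.log 2 n * 2 ^ M := pow_add _ _ _
      _ ≤ (n + 2) * (n + 2) ^ M :=
          Nat.mul_le_mul (by omega) (Nat.pow_le_pow_left (by omega) M)
      _ = (n + 2) ^ (1 + M) := by rw [pow_add, pow_one]
  · intro c
    obtain ⟨M, hM1⟩ := hM (12 * (c + 1))
    filter_upwards [eventually_ge_atTop (2 ^ (16 * (c + 1) * (M + 1) + 100))] with n hn N hN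
    have h1 := le_log_of _ _ hn
    have h2 := Nat.log_le_clog 2 n
    have h3 := hM1 N
    have h4 : Nat.log 2 N ≤ c * (Nat.log 2 n + 1) := (Nat.log_mono_right hN).trans (log_pow_le n c)
    have h6 := log_half (Nat.log 2 n)
    have h7 := log_half (Nat.log 2 (Nat.log 2 n))
    show 2 * Nat.log 2 (Nat.log 2 (Nat.log 2 n)) + 3 * a N + c ≤ Nat.clog 2 n
    set L := Nat.log 2 n with hL
    have h8 : 12 * a N ≤ L + 1 + 12 * M := by
      have e1 : 12 * (c + 1) * a N = (c + 1) * (12 * a N) := by ring
      have e2 : 12 * (c + 1) * M = (c + 1) * (12 * M) := by ring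
      have e3 : c * (L + 1) ≤ (c + 1) * (L + 1) := Nat.mul_le_mul_right _ (by omega)
      have e4 : (c + 1) * (12 * a N) ≤ (c + 1) * (L + 1 + 12 * M) := by
        have : (c + 1) * (L + 1 + 12 * M) = (c + 1) * (L + 1) + (c + 1) * (12 * M) := by ring
        omega
      exact Nat.le_of_mul_le_mul_left e4 (by omega)
    have h9 : 16 * (c + 1) * (M + 1) = 16 * (c * M) + 16 * c + 16 * M + 16 := by ring
    have h10 : Nat.log 2 (Nat.log 2 L) ≤ L / 4 := by
      have := Nat.log_mono_right (b := 2) h6
      have h11 := log_half (L / 2)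
      omega
    have h12 : Nat.log 2 (Nat.log 2 L) ≤ L / 8 + 4 := by
      have e1 := log_half (Nat.log 2 L)
      have e2 : Nat.log 2 L ≤ L / 4 + 8 := by
        by_cases hL64 : L < 64
        · have : Nat.log 2 L < 6 := (Nat.log_lt_iff_lt_pow (by norm_num) (by omega)).2 (by omega)
          omega
        · have e3 : L < 2 ^ (L / 4 + 1) := by
            have e4 : ∀ t : ℕ, 4 ≤ t → 4 * t + 4 ≤ 2 ^ (t + 1) := by
              intro t ht
              induction t, ht using Nat.le_induction with
              | base => norm_num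
              | succ t _ ih => rw [pow_succ]; omega
            have := e4 (L / 4) (by omega)
            omega
          have := (Nat.log_lt_iff_lt_pow (by norm_num) (by omega)).2 e3
          omega
      omega
    omega

/-- `g n = (log n) ^ 2`, `G n = n ^ log n`, and `O(log n)` bits of advice -/
theorem admissible_sq (C : ℕ) : Admissible (fun n => Nat.clog 2 n ^ 2)
    (fun n => n ^ Nat.clog 2 n) (fun n => C * Nat.log 2 n + C) := by
  refine ⟨?_, ?_, time_ok⟩
  · refine ⟨2 * C, fun n => ?_⟩
    have h2 : 2 ^ Nat.log 2 n ≤ n + 2 := by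
      rcases Nat.eq_zero_or_pos n with rfl | hn
      · simp
      · exact (Nat.pow_log_le_self 2 (by omega)).trans (by omega)
    calc 2 ^ (C * Nat.log 2 n + C) = (2 ^ Nat.log 2 n) ^ C * 2 ^ C := by
          rw [pow_add, ← pow_mul, mul_comm C]
      _ ≤ (n + 2) ^ C * (n + 2) ^ C :=
          Nat.mul_le_mul (Nat.pow_le_pow_left h2 C) (Nat.pow_le_pow_left (by omega) C)
      _ = (n + 2) ^ (2 * C) := by rw [← pow_add]; congr 1; ring
  · intro c
    filter_upwards [eventually_ge_atTop (2 ^ (6 * C * (c + 1) + c + 10))] with n hn N hN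
    have h1 := le_log_of _ _ hn
    have h2 := Nat.log_le_clog 2 n
    have h4 : Nat.log 2 N ≤ c * (Nat.log 2 n + 1) := (Nat.log_mono_right hN).trans (log_pow_le n c)
    have h6 := log_half (Nat.log 2 n)
    have h7 := log_half (Nat.log 2 (Nat.log 2 n))
    show 2 * Nat.log 2 (Nat.log 2 (Nat.log 2 n)) + 3 * (C * Nat.log 2 N + C) + c ≤
      Nat.clog 2 n ^ 2
    have h8 : Nat.log 2 n ^ 2 ≤ Nat.clog 2 n ^ 2 := Nat.pow_le_pow_left h2 2
    refine le_trans ?_ h8
    set L := Nat.log 2 n with hL
    have h9 : C * Nat.log 2 N ≤ C * (c * (L + 1)) := Nat.mul_le_mul_left _ h4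
    have h10 : L * (6 * C * (c + 1) + c + 10) ≤ L * L := Nat.mul_le_mul_left _ h1
    have h11 : L * (6 * C * (c + 1) + c + 10) = 6 * (C * (c * L)) + 6 * (C * L) + c * L + 10 * L := by
      ring
    have h12 : C * (c * (L + 1)) = C * (c * L) + C * c := by ring
    have h13 : C * c ≤ C * (c * L) := Nat.mul_le_mul_left _ (Nat.le_mul_of_pos_right _ (by omega))
    have h14 : C ≤ C * L := Nat.le_mul_of_pos_right _ (by omega)
    have h15 : c ≤ c * L := Nat.le_mul_of_pos_right _ (by omega)
    rw [pow_two]
    omega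

theorem inPA_of_inP {S : Set (List Bool)} (h : InP S) (a : ℕ → ℕ) : InPA a S := by
  refine ⟨{z | (Pool.Agent.H583R2.spl z).1 ∈ S}, ?_, fun n => ⟨[], by simp, fun x _ => ?_⟩⟩
  · refine Pool.Agent.NPC.InP.of_reduces (L' := S) ⟨fun z => (Pool.Agent.H583R2.spl z).1,
      Pool.Agent.H545R2.KS.polyTime_of_pf
        (Pool.Agent.H583R2.PF.fst' (Pool.Agent.H583R2.PF.spl Pool.Agent.H583R2.PF.id)),
      fun x => Iff.rfl⟩ h
  · show x ∈ S ↔ (Pool.Agent.H583R2.spl (pairBits x _)).1 ∈ S
    rw [Pool.Agent.H545R2.KS.spl_pairBits]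

/-- There are universal Turing machines; `g n = log n`, `G n = n ^ log n` are admissible for
`o(log n)` bits of advice, and `g n = (log n) ^ 2` for `O(log n)` bits; and for every universal
machine and all admissible `g`, `G`, `a`: if `P ≠ NP` then no set in `P` with advice of length `a`
separates `K[g(n), G(n)] ∩ SAT` from the complement of `SAT`, not even from
`K[g(n), G(n)] \ SAT` (and if `P = NP` then `SAT` does, without advice). -/
theorem result :
    (∃ U : Machine, IsUniversal U) ∧
    (∀ a : ℕ → ℕ, (∀ k : ℕ, ∀ᶠ n in atTop, k * a n ≤ Nat.log 2 n) →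
      Admissible (fun n => Nat.clog 2 n) (fun n => n ^ Nat.clog 2 n) a) ∧
    (∀ C : ℕ, Admissible (fun n => Nat.clog 2 n ^ 2) (fun n => n ^ Nat.clog 2 n)
      (fun n => C * Nat.log 2 n + C)) ∧
    ∀ (U : Machine), IsUniversal U → ∀ g G a : ℕ → ℕ, Admissible g G a →
      (¬ SeparableAdv a (K U g G ∩ SAT) SATᶜ ↔ ¬ PEqNP) ∧
      (¬ SeparableAdv a (K U g G ∩ SAT) (K U g G \ SAT) ↔ ¬ PEqNP) := by
  refine ⟨exists_universal, fun a ha => admissible_log ha, admissible_sq,
    fun U hU g G a hgG => ?_⟩
  have hc := Pool.Agent.NPC.H545KS.sat_complete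
  have hP : InP SAT ↔ PEqNP := by
    constructor
    · intro h L
      exact ⟨Pool.Agent.NPC.InP.inNP, fun hL => (hc.2 L hL).elim fun f hf =>
        Pool.Agent.NPC.InP.of_reduces ⟨f, hf⟩ h⟩
    · intro h
      exact (h SAT).2 hc.1
  have h2 : SeparableAdv a (K U g G ∩ SAT) (K U g G \ SAT) ↔ PEqNP := by
    rw [← hP]
    constructor
    · rintro ⟨S, hS, h1, h2⟩
      refine inP_of_agree_adv hU hgG.1 hgG.2.1 hgG.2.2 hS
        fun x hx => ⟨fun h => ?_, fun h => h1 ⟨hx, h⟩⟩
      by_contra hcon
      have : x ∈ S ∩ (K U g G \ SAT) := ⟨h, hx, hcon⟩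
      rw [h2] at this
      exact this
    · intro h
      refine ⟨SAT, inPA_of_inP h a, Set.inter_subset_right, ?_⟩
      ext x
      simp only [Set.mem_inter_iff, Set.mem_sdiff, Set.mem_empty_iff_false, iff_false]
      exact fun h => h.2.2 h.1
  have h1 : SeparableAdv a (K U g G ∩ SAT) SATᶜ ↔ PEqNP := by
    constructor
    · rintro ⟨S, hS, h3, h4⟩
      refine h2.1 ⟨S, hS, h3, ?_⟩
      ext x
      simp only [Set.mem_inter_iff, Set.mem_sdiff, Set.mem_empty_iff_false, iff_false]
      rintro ⟨h5, -, h6⟩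
      have : x ∈ S ∩ SATᶜ := ⟨h5, h6⟩
      rw [h4] at this
      exact this
    · intro h
      exact ⟨SAT, inPA_of_inP (hP.2 h) a, Set.inter_subset_right, Set.inter_compl_self _⟩
  exact ⟨not_congr h1, not_congr h2⟩

end Pool.Agent.Results.MP_359409_lc.FewAdviceBits
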