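import Pool.Agent.TH671.KS.Thm2
import Pool.Agent.TH671.KS.Uni
import Pool.Agent.H545R2.KS.Sat

set_option autoImplicit false

/-!
# Joseph's inseparability statement is equivalent to `P ≠ NP`

`K[log n, n ^ log n] ∩ SAT` and the complement of `SAT` are polynomially inseparable if and only
if `P ≠ NP`.

Idea. Let `S` be in `P` and agree with `SAT` on `K`. If `S` is not `SAT`, look (for a suitable `m`)
for a satisfiable formula `x` with `|x| ≤ m < |x| ^ 2` for which the search for a satisfying
assignment guided by `S` fails, together with a satisfying assignment. This is itself an `NP`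
search problem, whose instance `m` has a description of length about `log log log m` if
`m = 2 ^ 2 ^ i`; guide the search for `x` by `S` as well. Whatever happens, one of at most three
strings, which can be computed from `i` in time polynomial in `m`, is a mistake of `S`. (The idea
to ask an algorithm for an instance on which it fails is due to Gutfreund, Shaltiel and Ta-Shma.)

Turing machines are those of Mathlib; formulas are written in postfix notation; the existence of a
universal machine is proved in `Pool.Agent.TH671.KS.Uni`.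
-/

namespace Pool.Agent.Results.MP_359409_lc.InseparableIffPNeNP

open Filter Pool.Agent.TH671.KS
open Pool.Agent.NPC (InP InNP)
open Pool.Agent.H545R2.KS (Machine K Separable SAT)

/-- Polynomial inseparability. -/
def Inseparable (A B : Set (List Bool)) : Prop := ¬ Separable A B

/-- `P = NP`. -/
def PEqNP : Prop := ∀ L : Set (List Bool), InP L ↔ InNP L

/-- The bound `g` for the length of the description exceeds `log log log n` by more than any
constant, and the bound `G` for the time exceeds every polynomial. -/
def Admissible (g G : ℕ → ℕ) : Prop :=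
  (∀ c, ∀ᶠ n in atTop, Nat.log 2 (Nat.log 2 (Nat.log 2 n)) + c ≤ g n) ∧
    ∀ c, ∀ᶠ n in atTop, n ^ c ≤ G n

theorem admissible_log : Admissible (fun n => Nat.clog 2 n) (fun n => n ^ Nat.clog 2 n) := by
  have hbig : ∀ c : ℕ, ∀ n ≥ 2 ^ c, c ≤ Nat.log 2 n := by
    intro c n hn
    have h1 : 0 < 2 ^ c := by positivity
    exact (Nat.le_log_iff_pow_le (by norm_num) (by omega)).2 hn
  have hcl : ∀ n, Nat.log 2 n ≤ Nat.clog 2 n := fun n => Nat.log_le_clog 2 n
  constructor
  · intro c
    filter_upwards [eventually_ge_atTop (2 ^ (2 * c))] with n hn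
    have h1 := hbig _ n hn
    have h2 := hcl n
    set m := Nat.log 2 n with hm
    have h3 : ∀ k : ℕ, Nat.log 2 k ≤ k / 2 := by
      intro k
      rcases Nat.eq_zero_or_pos k with rfl | hk
      · simp
      · have h4 : k / 2 < 2 ^ (k / 2) := Nat.lt_two_pow_self
        have h5 : k < 2 ^ (k / 2 + 1) := by rw [pow_succ]; omega
        have := (Nat.log_lt_iff_lt_pow (by norm_num) (by omega)).2 h5
        omega
    have h6 := h3 m
    have h7 := h3 (Nat.log 2 m)
    omega
  · intro c
    filter_upwards [eventually_ge_atTop (2 ^ c)] with n hn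
    have h1 := hbig _ n hn
    have h2 := hcl n
    have h3 : 0 < 2 ^ c := by positivity
    exact Nat.pow_le_pow_right (by omega) (by omega)

/-- There are universal Turing machines; and for every universal Turing machine `U` the following
holds for all admissible bounds `g` and `G`, for instance for `g n = log n` and `G n = n ^ log n`,
where `log` is the binary logarithm rounded up. The sets `K[g(n), G(n)] ∩ SAT` and the complement
of `SAT` are polynomially inseparable if and only if `P ≠ NP`; even `K[g(n), G(n)] ∩ SAT` and
`K[g(n), G(n)] \ SAT` are; and every set `S` in `P` with `K[g(n), G(n)] ∩ SAT ⊆ S ⊆ SAT` is a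
finite variation of `SAT`. -/
theorem result :
    (∃ U : Machine, IsUniversal U) ∧
    Admissible (fun n => Nat.clog 2 n) (fun n => n ^ Nat.clog 2 n) ∧
    ∀ (U : Machine), IsUniversal U → ∀ g G : ℕ → ℕ, Admissible g G →
      (Inseparable (K U g G ∩ SAT) SATᶜ ↔ ¬ PEqNP) ∧
      (Inseparable (K U g G ∩ SAT) (K U g G \ SAT) ↔ ¬ PEqNP) ∧
      ∀ S : Set (List Bool), InP S → K U g G ∩ SAT ⊆ S → S ⊆ SAT → (SAT \ S).Finite := by
  refine ⟨exists_universal, admissible_log, fun U hU g G hgG => ?_⟩
  have hc := Pool.Agent.NPC.H545KS.sat_complete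
  have hp := Pool.Agent.NPC.H545KS.sat_paddable
  have hP : InP SAT ↔ PEqNP := by
    constructor
    · intro h L
      exact ⟨Pool.Agent.NPC.InP.inNP, fun hL => (hc.2 L hL).elim fun f hf =>
        Pool.Agent.NPC.InP.of_reduces ⟨f, hf⟩ h⟩
    · intro h
      exact (h SAT).2 hc.1
  have h2 : Separable (K U g G ∩ SAT) (K U g G \ SAT) ↔ PEqNP := by
    rw [← hP]
    constructor
    · rintro ⟨S, hS, h1, h2⟩
      refine inP_of_agree hU hgG.1 hgG.2 hc hp hS fun x hx => ⟨fun h => ?_, fun h => h1 ⟨hx, h⟩⟩
      by_contra hcon
      have : x ∈ S ∩ (K U g G \ SAT) := ⟨h, hx, hcon⟩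
      rw [h2] at this
      exact this
    · intro h
      refine ⟨SAT, h, Set.inter_subset_right, ?_⟩
      ext x
      simp only [Set.mem_inter_iff, Set.mem_sdiff, Set.mem_empty_iff_false, iff_false]
      exact fun h => h.2.2 h.1
  have h1 : Separable (K U g G ∩ SAT) SATᶜ ↔ PEqNP := by
    constructor
    · rintro ⟨S, hS, h3, h4⟩
      refine h2.1 ⟨S, hS, h3, ?_⟩
      ext x
      simp only [Set.mem_inter_iff, Set.mem_sdiff, Set.mem_empty_iff_false, iff_false]
      rintro ⟨h5, -, h6⟩
      have : x ∈ S ∩ SATᶜ := ⟨h5, h6⟩
      rw [h4] at this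
      exact this
    · intro h
      exact ⟨SAT, hP.2 h, Set.inter_subset_right, Set.inter_compl_self _⟩
  refine ⟨not_congr h1, not_congr h2, fun S hS h3 h4 => ?_⟩
  exact finite_diff hU hgG.1 hgG.2 hc hp hS h3 h4

end Pool.Agent.Results.MP_359409_lc.InseparableIffPNeNP
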